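import Mathlib
import Pool.Agent.V117.LocHopf9

open TensorProduct LocHopf

namespace Pool.Agent.Results.MP_af7f8e_al.NotSymmetric

/-- A ring is local if it has exactly one maximal left ideal
(`Ideal` means left ideal for noncommutative rings). -/
def IsLoc (A : Type) [Ring A] : Prop := ∃! I : Ideal A, I.IsMaximal

/-- An algebra is symmetric if it has a linear form `t` with `t (a b) = t (b a)` whose kernel
contains no nonzero left ideal. -/
def IsSymm (k A : Type) [Field k] [Ring A] [Algebra k A] : Prop :=
  ∃ t : A →ₗ[k] k, (∀ a b, t (a * b) = t (b * a)) ∧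
    ∀ I : Ideal A, (∀ x ∈ I, t x = 0) → I = ⊥

/-- main lemma for a nilpotent element `x` and a maximal left ideal `I` -/
theorem nil_mem {A : Type*} [Ring A] (I : Ideal A) (hI : I.IsMaximal) (x : A) (n : ℕ)
    (hx : x ^ n = 0) (hc : ∀ h a, x * a ∈ I → x * (h * a) ∈ I) : ∀ a, x * a ∈ I := by
  let J : Ideal A :=
    { carrier := {a | x * a ∈ I}
      add_mem' := by
        intro a b ha hb
        show x * (a + b) ∈ I
        rw [mul_add]; exact I.add_mem ha hb
      zero_mem' := by show x * 0 ∈ I; rw [mul_zero]; exact I.zero_mem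
      smul_mem' := by
        intro h a ha
        exact hc h a ha }
  have hJ : I ≤ J := fun i hi => I.mul_mem_left x hi
  by_cases hT : J = ⊤
  · intro a
    have : a ∈ J := by rw [hT]; trivial
    exact this
  · exfalso
    have h := hI.eq_of_le hT hJ
    have key : ∀ m : ℕ, x ^ m ∈ I → (1 : A) ∈ I := by
      intro m
      induction m with
      | zero => intro h; simpa using h
      | succ m ih =>
        intro hm
        apply ih
        rw [h]
        show x * x ^ m ∈ I
        rw [← pow_succ']; exact hm
    exact hI.ne_top ((Ideal.eq_top_iff_one I).2 (key n (by rw [hx]; exact I.zero_mem)))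

theorem clos (I : Ideal H) (x : H) (hg : ∀ g a, x * a ∈ I → x * (q g * a) ∈ I) :
    ∀ h a, x * a ∈ I → x * (h * a) ∈ I := by
  intro h
  induction h using H_induction with
  | gen g => exact hg g
  | alg r =>
    intro a ha
    rw [← mul_assoc, ← Algebra.commutes, mul_assoc]
    exact I.mul_mem_left _ ha
  | add a b ha hb => intro c hc; rw [add_mul, mul_add]; exact I.add_mem (ha c hc) (hb c hc)
  | mul a b ha hb => intro c hc; rw [mul_assoc]; exact ha _ (hb c hc)

theorem alg_mul (a b : H) : algebraMap (ZMod 2) H (counitH b) *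
    algebraMap (ZMod 2) H (counitH a) = algebraMap (ZMod 2) H (counitH (a * b)) := by
  rw [map_mul counitH, mul_comm (counitH a), map_mul]

theorem pow4 {x : H} (h : x * (x * (x * x)) = 0) : x ^ 4 = 0 := by
  rw [show x ^ 4 = x * (x * (x * x)) by noncomm_ring]; exact h

section
variable (I : Ideal H) (hI : I.IsMaximal)
include hI

theorem f_mem : ∀ a, q .f * a ∈ I := by
  refine nil_mem I hI (q .f) 2 (by rw [pow_two]; exact sH.ff) (clos I _ ?_)
  intro g a ha
  cases g
  · rw [show q .f * (q .l * a) = q .l * (q .f * a) from (sH.lf' a).symm]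
    exact I.mul_mem_left _ ha
  · rw [show q .f * (q .m * a) = q .m * (q .f * a) from (sH.mf' a).symm]
    exact I.mul_mem_left _ ha
  · rw [show q .f * (q .v * a) = q .v * (q .f * a) from (sH.vf' a).symm]
    exact I.mul_mem_left _ ha
  · rw [show q .f * (q .d * a) = q .d * (q .f * a) from sH.fd' a]
    exact I.mul_mem_left _ ha
  · exact I.mul_mem_left _ ha

theorem d_mem : ∀ a, q .d * a ∈ I := by
  have hf := f_mem I hI
  refine nil_mem I hI (q .d) 4 (pow4 sH.d4) (clos I _ ?_)
  intro g a ha
  cases g
  · have e : q .d * (q .l * a) = q .l * (q .d * a) - q .f * a := by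
      rw [show q .l * (q .d * a) = q .d * (q .l * a) + q .f * a from sH.ld' a]; noncomm_ring
    rw [e]
    exact I.sub_mem (I.mul_mem_left _ ha) (hf a)
  · have e : q .d * (q .m * a) = q .m * (q .d * a) - q .f * (q .l * a) - q .f * a := by
      rw [show q .m * (q .d * a) = q .d * (q .m * a) + q .f * (q .l * a) + q .f * a from
        sH.md' a]
      abel
    rw [e]
    exact I.sub_mem (I.sub_mem (I.mul_mem_left _ ha) (hf _)) (hf a)
  · have e : q .d * (q .v * a) = q .v * (q .d * a) - q .d * (q .f * a) - q .d * (q .d * a) := by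
      rw [show q .v * (q .d * a) = q .d * (q .v * a) + q .d * (q .f * a) + q .d * (q .d * a) from
        sH.vd' a]
      abel
    rw [e]
    exact I.sub_mem (I.sub_mem (I.mul_mem_left _ ha) (I.mul_mem_left _ (hf a)))
      (I.mul_mem_left _ ha)
  · exact I.mul_mem_left _ ha
  · exact I.mul_mem_left _ (hf a)

theorem l_mem : ∀ a, q .l * a ∈ I := by
  have hf := f_mem I hI
  have hd := d_mem I hI
  refine nil_mem I hI (q .l) 4 (pow4 sH.l4) (clos I _ ?_)
  intro g a ha
  cases g
  · exact I.mul_mem_left _ ha
  · rw [show q .l * (q .m * a) = q .m * (q .l * a) from (sH.ml' a).symm]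
    exact I.mul_mem_left _ ha
  · rw [show q .l * (q .v * a) = q .v * (q .l * a) + q .d * a from sH.lv' a]
    exact I.add_mem (I.mul_mem_left _ ha) (hd a)
  · exact I.mul_mem_left _ (hd a)
  · exact I.mul_mem_left _ (hf a)

theorem m_mem : ∀ a, q .m * a ∈ I := by
  have hf := f_mem I hI
  have hd := d_mem I hI
  refine nil_mem I hI (q .m) 4 (pow4 sH.m4) (clos I _ ?_)
  intro g a ha
  cases g
  · rw [show q .m * (q .l * a) = q .l * (q .m * a) from sH.ml' a]
    exact I.mul_mem_left _ ha
  · exact I.mul_mem_left _ ha
  · rw [show q .m * (q .v * a) = q .v * (q .m * a) + q .d * (q .l * a) + q .d * a from sH.mv' a]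
    exact I.add_mem (I.add_mem (I.mul_mem_left _ ha) (hd _)) (hd a)
  · exact I.mul_mem_left _ (hd a)
  · exact I.mul_mem_left _ (hf a)

theorem v_mem : ∀ a, q .v * a ∈ I := by
  have hf := f_mem I hI
  have hd := d_mem I hI
  have hl := l_mem I hI
  have hm := m_mem I hI
  have hv : (q .v) ^ 8 = 0 := by
    have h4 : (q .v : H) ^ 4 = q .d * (q .d * (q .d * q .f)) := by
      rw [show q .v ^ 4 = q .v * (q .v * (q .v * q .v)) by noncomm_ring]
      exact sH.v4
    have h8 : (q .v : H) ^ 8 = q .v ^ 4 * q .v ^ 4 := by rw [← pow_add]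
    rw [h8, h4]
    have e1 : q .f * (q .d * (q .d * (q .d * q .f))) =
        q .d * (q .d * (q .d * (q .f * q .f))) := by
      rw [show q .f * (q .d * (q .d * (q .d * q .f))) = q .d * (q .f * (q .d * (q .d * q .f)))
        from sH.fd' _,
        show q .f * (q .d * (q .d * q .f)) = q .d * (q .f * (q .d * q .f)) from sH.fd' _,
        show q .f * (q .d * q .f) = q .d * (q .f * q .f) from sH.fd' _]
    have e2 : (q .f * q .f : H) = 0 := sH.ff
    simp only [mul_assoc, e1, e2, mul_zero]
  refine nil_mem I hI (q .v) 8 hv (clos I _ ?_)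
  intro g a _
  cases g
  · exact I.mul_mem_left _ (hl a)
  · exact I.mul_mem_left _ (hm a)
  · rename_i h; exact I.mul_mem_left _ h
  · exact I.mul_mem_left _ (hd a)
  · exact I.mul_mem_left _ (hf a)

theorem q_mem (g : Gen) : q g ∈ I := by
  cases g
  · simpa using l_mem I hI 1
  · simpa using m_mem I hI 1
  · simpa using v_mem I hI 1
  · simpa using d_mem I hI 1
  · simpa using f_mem I hI 1

theorem sub_mem' (h : H) : h - algebraMap (ZMod 2) H (counitH h) ∈ I := by
  induction h using H_induction with
  | gen g => rw [counit_q, map_zero, sub_zero]; exact q_mem I hI g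
  | alg r =>
    rw [AlgHom.commutes]
    simp
  | add a b ha hb =>
    have e : a + b - algebraMap (ZMod 2) H (counitH (a + b)) =
        (a - algebraMap (ZMod 2) H (counitH a)) + (b - algebraMap (ZMod 2) H (counitH b)) := by
      rw [map_add, map_add]; abel
    rw [e]; exact I.add_mem ha hb
  | mul a b ha hb =>
    have e : a * b - algebraMap (ZMod 2) H (counitH (a * b)) =
        a * (b - algebraMap (ZMod 2) H (counitH b)) +
        algebraMap (ZMod 2) H (counitH b) * (a - algebraMap (ZMod 2) H (counitH a)) := by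
      rw [mul_sub, mul_sub, Algebra.commutes (counitH b) a, ← alg_mul a b]
      abel
    rw [e]
    exact I.add_mem (I.mul_mem_left _ hb) (I.mul_mem_left _ ha)

theorem eq_ker : I = RingHom.ker counitH := by
  ext h
  rw [RingHom.mem_ker]
  have h1 := sub_mem' I hI h
  constructor
  · intro hh
    by_contra hne
    have h2 : algebraMap (ZMod 2) H (counitH h) ∈ I := by
      have := I.sub_mem hh h1
      simpa using this
    have h3 : (1 : H) ∈ I := by
      have := I.mul_mem_left (algebraMap (ZMod 2) H (counitH h)⁻¹) h2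
      rwa [← map_mul, inv_mul_cancel₀ hne, map_one] at this
    exact hI.ne_top ((Ideal.eq_top_iff_one I).2 h3)
  · intro hh
    rw [hh, map_zero, sub_zero] at h1
    exact h1

end

theorem isLoc : IsLoc H := by
  have : Nontrivial H := counitH.toRingHom.domain_nontrivial
  obtain ⟨I, hI⟩ := Ideal.exists_maximal H
  refine ⟨I, hI, fun J hJ => ?_⟩
  rw [eq_ker I hI, eq_ker J hJ]

theorem mul_top (h : H) : h * top sH = algebraMap (ZMod 2) H (counitH h) * top sH := by
  induction h using H_induction with
  | gen g =>
    rw [counit_q, map_zero, zero_mul]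
    cases g
    · exact l_top sH
    · exact m_top sH
    · exact v_top sH
    · exact d_top sH
    · exact f_top sH
  | alg r => rw [AlgHom.commutes]; rfl
  | add a b ha hb => rw [add_mul, ha, hb, map_add, map_add, add_mul]
  | mul a b ha hb =>
    rw [mul_assoc, hb, ← mul_assoc, ← Algebra.commutes, mul_assoc, ha, ← mul_assoc, alg_mul]

theorem not_symm : ¬ IsSymm (ZMod 2) H := by
  rintro ⟨t, ht, hI⟩
  have h1 : t (top sH) = 0 := by
    rw [← comm_top sH, map_add, ht (yy sH) sH.v]
    exact two_fix (by match_scalars; decide)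
  have h2 : Ideal.span {top sH} = (⊥ : Ideal H) := by
    apply hI
    intro x hx
    obtain ⟨a, rfl⟩ := Ideal.mem_span_singleton'.1 hx
    rw [mul_top, ← Algebra.smul_def, map_smul, h1, smul_zero]
  have h3 : top sH ∈ (⊥ : Ideal H) := by
    rw [← h2]; exact Ideal.subset_span rfl
  exact top_ne (by simpa using h3)

/-- There are a field `k` and a finite-dimensional local Hopf algebra over `k` whose underlying
algebra is not symmetric. -/
theorem result : ∃ (k : Type) (_ : Field k) (A : Type) (_ : Ring A) (_ : HopfAlgebra k A),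
    Module.Finite k A ∧ IsLoc A ∧ ¬ IsSymm k A :=
  ⟨ZMod 2, inferInstance, H, inferInstance, inferInstance, finite_H, isLoc, not_symm⟩

end Pool.Agent.Results.MP_af7f8e_al.NotSymmetric
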